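import Pool.Agent.H94.CuboidSystem

/-!
The system of the problem is solvable if and only if a perfect cuboid exists (the converse
direction being the new one).
-/

namespace Pool.Agent.Results.MP_4eb5f1_nt.CuboidEquiv

/-- The system of Q1 has a solution iff there is a perfect cuboid. -/
theorem result :
    (∃ n : ℕ, Odd n ∧ ∃ b c e f g h k l : ℕ,
      1 < b ∧ 1 < c ∧ 1 < e ∧ 1 < f ∧ 1 < g ∧ 1 < h ∧ 1 < k ∧ 1 < l ∧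
      (n : ℤ) = (e : ℤ) ^ 2 - (f : ℤ) ^ 2 ∧
      (n : ℤ) = (b : ℤ) * ((g : ℤ) ^ 2 - (h : ℤ) ^ 2) ∧
      (n : ℤ) = (c : ℤ) * ((k : ℤ) ^ 2 - (l : ℤ) ^ 2) ∧
      e ^ 2 * f ^ 2 = b ^ 2 * g ^ 2 * h ^ 2 + c ^ 2 * k ^ 2 * l ^ 2) ↔
    (∃ x y z : ℕ, 0 < x ∧ 0 < y ∧ 0 < z ∧ IsSquare (x ^ 2 + y ^ 2) ∧ IsSquare (x ^ 2 + z ^ 2) ∧
      IsSquare (y ^ 2 + z ^ 2) ∧ IsSquare (x ^ 2 + y ^ 2 + z ^ 2)) := by
  constructor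
  · rintro ⟨n, hn, b, c, e, f, g, h, k, l, H⟩
    exact ⟨_, _, _, Pool.Agent.H94.Cuboid.cuboid_of_system ⟨hn, H⟩⟩
  · rintro ⟨x, y, z, H⟩
    obtain ⟨n, b, c, e, f, g, h, k, l, hn, H'⟩ :=
      Pool.Agent.H94.Cuboid.exists_system_of_cuboid x y z H
    exact ⟨n, hn, b, c, e, f, g, h, k, l, H'⟩

end Pool.Agent.Results.MP_4eb5f1_nt.CuboidEquiv
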