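import Pool.Agent.CubS.Count

/-!
The number of the primitive perfect cuboids with an edge `n ≤ X` (the other two edges arbitrarily
large) is at most `C X ^ (9 / 10 + ε)`.
-/

namespace Pool.Agent.Results.MP_4eb5f1_nt.SparseEdges

theorem result (ε : ℝ) (hε : 0 < ε) : ∃ C : ℝ, ∀ X : ℕ, ∀ S : Finset (ℕ × ℕ × ℕ),
    (∀ n x y : ℕ, (n, x, y) ∈ S →
      n ≤ X ∧ 0 < n ∧ 0 < x ∧ 0 < y ∧ Nat.gcd (Nat.gcd n x) y = 1 ∧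
        IsSquare (n ^ 2 + x ^ 2) ∧ IsSquare (n ^ 2 + y ^ 2) ∧ IsSquare (x ^ 2 + y ^ 2) ∧
        IsSquare (n ^ 2 + x ^ 2 + y ^ 2)) →
      (S.card : ℝ) ≤ C * (X : ℝ) ^ (9 / 10 + ε) := by
  obtain ⟨C, hC⟩ := Pool.Agent.CubS.sparse ε hε
  exact ⟨C, fun X S hS => hC X S fun t ht => hS t.1 t.2.1 t.2.2 ht⟩

end Pool.Agent.Results.MP_4eb5f1_nt.SparseEdges
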