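import Pool.Agent.H94.CuboidSystem

/-!
Any positive solution of the system of the problem yields the perfect cuboid with edges
`n`, `2bgh`, `2ckl`.  We prove that, after division by the greatest common divisor of the three
edges, each edge has at least three distinct prime factors.
-/

namespace Pool.Agent.Results.MP_4eb5f1_nt.ThreePrimes

theorem result (n b c e f g h k l : ℕ) (hn : 0 < n) (hb : 0 < b) (hc : 0 < c)
    (hg : 0 < g) (hh : 0 < h) (hk : 0 < k) (hl : 0 < l)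
    (h1 : (n : ℤ) = (e : ℤ) ^ 2 - (f : ℤ) ^ 2)
    (h2 : (n : ℤ) = (b : ℤ) * ((g : ℤ) ^ 2 - (h : ℤ) ^ 2))
    (h3 : (n : ℤ) = (c : ℤ) * ((k : ℤ) ^ 2 - (l : ℤ) ^ 2))
    (h4 : e ^ 2 * f ^ 2 = b ^ 2 * g ^ 2 * h ^ 2 + c ^ 2 * k ^ 2 * l ^ 2)
    (G : ℕ) (hG : G = Nat.gcd n (Nat.gcd (2 * b * g * h) (2 * c * k * l))) :
    3 ≤ (n / G).primeFactors.card ∧ 3 ≤ (2 * b * g * h / G).primeFactors.card ∧
      3 ≤ (2 * c * k * l / G).primeFactors.card :=
  Pool.Agent.H94.Cuboid.system_three_primes n b c e f g h k l G hn hb hc hg hh hk hl h1 h2 h3 h4 hG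

end Pool.Agent.Results.MP_4eb5f1_nt.ThreePrimes
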